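import Pool.Agent.Lib_helper72.MET.EBase

/-! # MET, block E2a -/

set_option autoImplicit false

namespace Pool.Agent.MET

/-- the sign character as a parity -/
theorem exists_par {k : ℕ} (ε : (Fin k → ℤ) → ℤ) (h1 : ∀ v, ε v = 1 ∨ ε v = -1)
    (h2 : ∀ v w, ε (v + w) = ε v * ε w) : ∃ a : (Fin k → ℤ) →+ ℤ, ∀ v, ε v = sgn (a v) := by
  have hz : ε 0 = 1 := by
    have := h2 0 0
    rw [add_zero] at this
    rcases h1 0 with h | h
    · exact h
    · rw [h] at this; norm_num at this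
  have hne : ∀ v, ε v ≠ 0 := by
    intro v h
    rcases h1 v with h' | h' <;> rw [h] at h' <;> norm_num at h'
  have hneg : ∀ v, ε (-v) = ε v := by
    intro v
    have h3 := h2 v (-v)
    rw [add_neg_cancel, hz] at h3
    rcases h1 v with h | h <;> rcases h1 (-v) with h' | h' <;> rw [h, h'] at h3 <;> rw [h, h'] <;>
      norm_num at h3
  let A : (Fin k → ℤ) →+ ℤ :=
    { toFun := fun v => ∑ i, v i * (if ε (Pi.single i 1) = 1 then 0 else 1)
      map_zero' := by simp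
      map_add' := fun v w => by
        simp only [Pi.add_apply, add_mul, Finset.sum_add_distrib] }
  refine ⟨A, ?_⟩
  have hbase : ∀ i, ε (Pi.single i 1) = sgn (A (Pi.single i 1)) := by
    intro i
    have hA : A (Pi.single i 1) = if ε (Pi.single i 1) = 1 then 0 else 1 := by
      show ∑ j, (Pi.single i 1 : Fin k → ℤ) j * (if ε (Pi.single j 1) = 1 then 0 else 1) = _
      rw [Finset.sum_eq_single i]
      · simp
      · intro j _ hj
        simp [Pi.single_eq_of_ne hj]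
      · intro h; exact absurd (Finset.mem_univ _) h
    rw [hA]
    by_cases h : ε (Pi.single i 1) = 1
    · rw [if_pos h, sgn_zero, h]
    · rw [if_neg h, sgn_one]
      exact (h1 _).resolve_left h
  have hsm : ∀ (i : Fin k) (n : ℤ), ε (Pi.single i n) = sgn (A (Pi.single i n)) := by
    intro i n
    induction n using Int.induction_on with
    | zero => rw [Pi.single_zero, hz, map_zero, sgn_zero]
    | succ n ih => rw [Pi.single_add, h2, map_add, sgn_add, ih, hbase]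
    | pred n ih =>
      have e : (Pi.single i (-(n : ℤ) - 1) : Fin k → ℤ) = Pi.single i (-(n : ℤ)) + -Pi.single i 1 := by
        funext j
        by_cases hj : j = i
        · subst hj
          simp [sub_eq_add_neg]
        · simp [Pi.single_eq_of_ne hj]
      rw [e, h2, map_add, sgn_add, ih, hneg, map_neg, hbase]
      congr 1
      have := sgn_sq (A (Pi.single i 1))
      have h3 := sgn_add (A (Pi.single i 1)) (-(A (Pi.single i 1)))
      rw [add_neg_cancel, sgn_zero] at h3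
      rcases sgn_cases (A (Pi.single i 1)) with h | h <;> rw [h] at h3 ⊢ <;> linarith
  intro v
  have hv : v = ∑ i, (Pi.single i (v i) : Fin k → ℤ) := by
    funext j
    simp [Finset.sum_apply, Pi.single_apply]
  have hs : ∀ s : Finset (Fin k), ε (∑ i ∈ s, (Pi.single i (v i) : Fin k → ℤ)) =
      sgn (A (∑ i ∈ s, (Pi.single i (v i) : Fin k → ℤ))) := by
    intro s
    classical
    induction s using Finset.induction_on with
    | empty => simp [hz, sgn_zero]
    | insert a s ha ih => rw [Finset.sum_insert ha, h2, map_add, sgn_add, ih, hsm]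
  rw [hv]
  exact hs Finset.univ

/-- the change of variables -/
def sgT {k k' : ℕ} (σ : (Fin k → ℤ) →+ (Fin k' → ℤ)) (a : (Fin k → ℤ) →+ ℤ)
    (u : Fin (k + 1 + 2) → ℤ) : Fin (k' + 1 + 2) → ℤ :=
  f4 (u 0) (u 1) (u 2 + a fun i => u i.succ.succ.succ) (σ fun i => u i.succ.succ.succ)

theorem sgT_f4 {k k' : ℕ} (σ : (Fin k → ℤ) →+ (Fin k' → ℤ)) (a : (Fin k → ℤ) →+ ℤ) (x y t : ℤ)
    (v : Fin k → ℤ) : sgT σ a (f4 x y t v) = f4 x y (t + a v) (σ v) := rfl

theorem sgT_add {k k' : ℕ} (σ : (Fin k → ℤ) →+ (Fin k' → ℤ)) (a : (Fin k → ℤ) →+ ℤ)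
    (u w : Fin (k + 1 + 2) → ℤ) : sgT σ a (u + w) = sgT σ a u + sgT σ a w := by
  obtain ⟨x, y, t, v, rfl⟩ := f4_surj u
  obtain ⟨x', y', t', v', rfl⟩ := f4_surj w
  rw [← f4_add, sgT_f4, sgT_f4, sgT_f4, ← f4_add, map_add, map_add]
  congr 1
  ring

theorem sgT_zero {k k' : ℕ} (σ : (Fin k → ℤ) →+ (Fin k' → ℤ)) (a : (Fin k → ℤ) →+ ℤ) :
    sgT σ a 0 = 0 := by
  rw [← f4_zero, sgT_f4, map_zero, map_zero, add_zero, f4_zero]

/-- the map of the modules -/
theorem hom_of_signed (c c' : MCode) (σ : (Fin c.1 → ℤ) →+ (Fin c'.1 → ℤ)) (a : (Fin c.1 → ℤ) →+ ℤ)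
    (φ : PM c.1 c.2.1 c.2.2 →+ PM c'.1 c'.2.1 c'.2.2)
    (h : ∀ v m, φ (xp v • m) = sgn (a v) • xp (σ v) • φ m)
    (ι' : PM c'.1 c'.2.1 c'.2.2 →+ NN c')
    (h2 : ∀ v m, ι' (xp v • m) = (xp (f4 0 0 0 v) : L (c'.1 + 1 + 2)) • ι' m)
    (h3 : ∀ m, (xp (f4 1 0 0 0) : L (c'.1 + 1 + 2)) • ι' m = ι' m)
    (h4 : ∀ m, (xp (f4 0 1 0 0) : L (c'.1 + 1 + 2)) • ι' m = ι' m) :
    ∃ f : NN c →+ NN c', f (gen 0) = gen 0 ∧ (∀ i, i < c.2.1 → f (gen (i + 1)) = ι' (φ (gen i))) ∧
      ∀ u m, f (xp u • m) = (xp (sgT σ a u) : L (c'.1 + 1 + 2)) • f m := by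
  refine upN c (B := NN c') (fun u => DistribSMul.toAddMonoidHom (NN c') (xp (sgT σ a u) : L (c'.1 + 1 + 2)))
    ?_ ?_ (gen 0) (fun i => ι' (φ (gen i))) ?_ ?_ ?_
  · intro x
    show (xp (sgT σ a 0) : L (c'.1 + 1 + 2)) • x = x
    rw [sgT_zero, xp_zero, one_smul]
  · intro v w x
    show (xp (sgT σ a (v + w)) : L (c'.1 + 1 + 2)) • x =
      (xp (sgT σ a v) : L (c'.1 + 1 + 2)) • (xp (sgT σ a w) : L (c'.1 + 1 + 2)) • x
    rw [sgT_add, xp_add, mul_smul]
  · refine ⟨?_, ?_, ?_⟩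
    · show (xp (sgT σ a (f4 1 0 0 0)) : L (c'.1 + 1 + 2)) • (gen 0 : NN c') = 2 • gen 0
      rw [sgT_f4, map_zero, map_zero, add_zero, gen_wy]
    · show (xp (sgT σ a (f4 0 1 0 0)) : L (c'.1 + 1 + 2)) • (gen 0 : NN c') = gen 0
      rw [sgT_f4, map_zero, map_zero, add_zero, gen_wy']
    · show (xp (sgT σ a (f4 0 0 1 0)) : L (c'.1 + 1 + 2)) • (gen 0 : NN c') = -gen 0
      rw [sgT_f4, map_zero, map_zero, add_zero, act_s]
  · intro i _
    refine ⟨?_, ?_, ?_⟩
    · show (xp (sgT σ a (f4 1 0 0 0)) : L (c'.1 + 1 + 2)) • ι' (φ (gen i)) = ι' (φ (gen i))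
      rw [sgT_f4, map_zero, map_zero, add_zero, h3]
    · show (xp (sgT σ a (f4 0 1 0 0)) : L (c'.1 + 1 + 2)) • ι' (φ (gen i)) = ι' (φ (gen i))
      rw [sgT_f4, map_zero, map_zero, add_zero, h4]
    · show (xp (sgT σ a (f4 0 0 1 0)) : L (c'.1 + 1 + 2)) • ι' (φ (gen i)) = -ι' (φ (gen i))
      rw [sgT_f4, map_zero, map_zero, add_zero, act_s]
  · intro r hr
    have key : ∀ (v : Fin c.1 → ℤ) (m : PM c.1 c.2.1 c.2.2),
        (xp (sgT σ a (f4 0 0 0 v)) : L (c'.1 + 1 + 2)) • ι' (φ m) = ι' (φ (xp v • m)) := by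
      intro v m
      have e1 : f4 0 0 (0 + a v) (σ v) = f4 0 0 (a v) 0 + f4 0 0 0 (σ v) := by
        rw [← f4_add]; simp
      rw [sgT_f4, e1, xp_add, mul_smul, ← h2, act_st, h, map_zsmul]
    have h5 := pm_rel (k := c.1) (b := c.2.1) r hr
    have h6 : ι' (φ ((r.map (fun t => sg t.2.1 • ((xp (mon c.1 t.2.2) : L c.1) •
        (gen t.1 : PM c.1 c.2.1 c.2.2)))).sum)) = 0 := by rw [h5, map_zero, map_zero]
    rw [map_list_sum, map_list_sum, List.map_map, List.map_map] at h6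
    refine Eq.trans ?_ h6
    congr 1
    apply List.map_congr_left
    intro t _
    simp only [Function.comp]
    by_cases ht : t.1 < c.2.1
    · rw [if_pos ht, map_zsmul, map_zsmul]
      congr 1
      exact key _ _
    · rw [if_neg ht, gen_of_le (Nat.not_lt.mp ht), smul_zero, smul_zero, map_zero, map_zero]

/-- the change of the variables -/
def sT {k k' : ℕ} (σ : (Fin k → ℤ) →+ (Fin k' → ℤ)) (a : (Fin k → ℤ) →+ ℤ)
    (v : Fin (k + 1) → ℤ) : Fin (k' + 1) → ℤ :=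
  Fin.cons (α := fun _ => ℤ) (v 0 + a fun i => v i.succ) (σ fun i => v i.succ)

theorem sgT_fr {k k' : ℕ} (σ : (Fin k → ℤ) →+ (Fin k' → ℤ)) (a : (Fin k → ℤ) →+ ℤ) (x y : ℤ)
    (v : Fin (k + 1) → ℤ) : sgT σ a (fr x y v) = fr x y (sT σ a v) := rfl

theorem fr_inj {k : ℕ} {x y : ℤ} {v w : Fin k → ℤ} (h : fr x y v = fr x y w) : v = w := by
  funext i
  exact congrFun h i.succ.succ

theorem fr_add0 {k : ℕ} (v w : Fin k → ℤ) : (fr 0 0 (v + w) : Fin (k + 2) → ℤ) = fr 0 0 v + fr 0 0 w := by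
  funext i
  refine Fin.cases ?_ (fun i => ?_) i
  · rfl
  · refine Fin.cases ?_ (fun i => ?_) i <;> rfl

theorem sT_add {k k' : ℕ} (σ : (Fin k → ℤ) →+ (Fin k' → ℤ)) (a : (Fin k → ℤ) →+ ℤ)
    (v w : Fin (k + 1) → ℤ) : sT σ a (v + w) = sT σ a v + sT σ a w := by
  have e := sgT_add σ a (fr 0 0 v) (fr 0 0 w)
  rw [← fr_add0, sgT_fr, sgT_fr, sgT_fr, ← fr_add0] at e
  exact fr_inj e

/-- E2a -/
theorem e2a (p : MCode × MCode) (h : SignedIso p) : FrIso (sgFr p.1, sgFr p.2) := by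
  obtain ⟨c, c'⟩ := p
  obtain ⟨σ, ε, φ, h1, h2, h3⟩ := h
  obtain ⟨a, ha⟩ := exists_par ε h1 h2
  dsimp only at σ ε φ h1 h2 h3 a ha
  obtain ⟨ι, i1, i2, i3, i4⟩ := exists_iota c
  obtain ⟨ι', j1, j2, j3, j4⟩ := exists_iota c'
  -- the inverse data
  let a' : (Fin c'.1 → ℤ) →+ ℤ := -(a.comp σ.symm.toAddMonoidHom)
  have sgn_neg : ∀ t : ℤ, sgn (-t) = sgn t := by
    intro t
    have h5 := sgn_add t (-t)
    rw [add_neg_cancel, sgn_zero] at h5
    rcases sgn_cases t with h | h <;> rw [h] at h5 ⊢ <;> linarith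
  have ha' : ∀ v, sgn (a' v) = sgn (a (σ.symm v)) := fun v => sgn_neg _
  have hφ : ∀ v m, φ.toAddMonoidHom (xp v • m) = sgn (a v) • xp (σ.toAddMonoidHom v) • φ.toAddMonoidHom m := by
    intro v m
    rw [← ha]
    exact h3 v m
  have hψ : ∀ v m, φ.symm.toAddMonoidHom (xp v • m) =
      sgn (a' v) • xp (σ.symm.toAddMonoidHom v) • φ.symm.toAddMonoidHom m := by
    intro v m
    rw [ha']
    apply φ.injective
    show φ (φ.symm (xp v • m)) = φ (sgn (a (σ.symm v)) • xp (σ.symm v) • φ.symm m)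
    rw [φ.apply_symm_apply, map_zsmul, h3, ha, smul_smul, sgn_sq, one_smul, σ.apply_symm_apply,
      φ.apply_symm_apply]
  obtain ⟨f, f1, f2, f3⟩ := hom_of_signed c c' σ.toAddMonoidHom a φ.toAddMonoidHom hφ ι' j2 j3 j4
  obtain ⟨g, g1, g2, g3⟩ := hom_of_signed c' c σ.symm.toAddMonoidHom a' φ.symm.toAddMonoidHom hψ ι i2 i3 i4
  -- the embeddings
  have fι : ∀ m, f (ι m) = ι' (φ m) := by
    intro m
    have e := pm_ext (f.comp ι) (ι'.comp φ.toAddMonoidHom) (by
      intro v i hi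
      show f (ι (xp v • gen i)) = ι' (φ (xp v • gen i))
      rw [i2, f3, i1 i hi, f2 i hi, sgT_f4]
      have e1 : f4 0 0 (0 + a v) (σ.toAddMonoidHom v) = f4 0 0 (a v) 0 + f4 0 0 0 (σ.toAddMonoidHom v) := by
        rw [← f4_add]; simp
      rw [e1, xp_add, mul_smul, ← j2, act_st, h3, ha, map_zsmul]
      rfl)
    exact DFunLike.congr_fun e m
  have gι : ∀ m, g (ι' m) = ι (φ.symm m) := by
    intro m
    have e := pm_ext (g.comp ι') (ι.comp φ.symm.toAddMonoidHom) (by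
      intro v i hi
      show g (ι' (xp v • gen i)) = ι (φ.symm.toAddMonoidHom (xp v • gen i))
      rw [j2, g3, j1 i hi, g2 i hi, sgT_f4]
      have e1 : f4 0 0 (0 + a' v) (σ.symm.toAddMonoidHom v) = f4 0 0 (a' v) 0 + f4 0 0 0 (σ.symm.toAddMonoidHom v) := by
        rw [← f4_add]; simp
      rw [e1, xp_add, mul_smul, ← i2, act_st, hψ, map_zsmul])
    exact DFunLike.congr_fun e m
  have T1 : ∀ u : Fin (c.1 + 1 + 2) → ℤ, sgT σ.symm.toAddMonoidHom a' (sgT σ.toAddMonoidHom a u) = u := by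
    intro u
    obtain ⟨x, y, t, v, rfl⟩ := f4_surj u
    rw [sgT_f4, sgT_f4]
    have e1 : σ.symm.toAddMonoidHom (σ.toAddMonoidHom v) = v := σ.symm_apply_apply v
    have e2 : a' (σ.toAddMonoidHom v) = - a v := by
      show -(a (σ.symm (σ v))) = - a v
      rw [σ.symm_apply_apply]
    rw [e1, e2, add_neg_cancel_right]
  have T2 : ∀ u : Fin (c'.1 + 1 + 2) → ℤ, sgT σ.toAddMonoidHom a (sgT σ.symm.toAddMonoidHom a' u) = u := by
    intro u
    obtain ⟨x, y, t, v, rfl⟩ := f4_surj u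
    rw [sgT_f4, sgT_f4]
    have e1 : σ.toAddMonoidHom (σ.symm.toAddMonoidHom v) = v := σ.apply_symm_apply v
    have e2 : a' v = - a (σ.symm.toAddMonoidHom v) := rfl
    rw [e1, e2, neg_add_cancel_right]
  have S1 : ∀ v : Fin (c.1 + 1) → ℤ, sT σ.symm.toAddMonoidHom a' (sT σ.toAddMonoidHom a v) = v := by
    intro v
    have := T1 (fr 0 0 v)
    rw [sgT_fr, sgT_fr] at this
    exact fr_inj this
  have S2 : ∀ v : Fin (c'.1 + 1) → ℤ, sT σ.toAddMonoidHom a (sT σ.symm.toAddMonoidHom a' v) = v := by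
    intro v
    have := T2 (fr 0 0 v)
    rw [sgT_fr, sgT_fr] at this
    exact fr_inj this
  have gf : ∀ m, g (f m) = m := by
    intro m
    have e := pm_ext (g.comp f) (AddMonoidHom.id (NN c)) (by
      intro u i hi
      show g (f (xp u • gen i)) = xp u • gen i
      rw [f3, g3, T1]
      congr 1
      rcases i with _ | i
      · rw [f1, g1]
      · rw [f2 i (by omega), gι]
        show ι (φ.symm (φ (gen i))) = _
        rw [φ.symm_apply_apply, i1 i (by omega)])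
    exact DFunLike.congr_fun e m
  have fg : ∀ m, f (g m) = m := by
    intro m
    have e := pm_ext (f.comp g) (AddMonoidHom.id (NN c')) (by
      intro u i hi
      show f (g (xp u • gen i)) = xp u • gen i
      rw [g3, f3, T2]
      congr 1
      rcases i with _ | i
      · rw [g1, f1]
      · rw [g2 i (by omega), fι]
        show ι' (φ (φ.symm (gen i))) = _
        rw [φ.apply_symm_apply, j1 i (by omega)])
    exact DFunLike.congr_fun e m
  refine ⟨{ toFun := sT σ.toAddMonoidHom a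
            invFun := sT σ.symm.toAddMonoidHom a'
            left_inv := S1
            right_inv := S2
            map_add' := fun v w => ?_ },
    { toFun := f
      invFun := g
      left_inv := gf
      right_inv := fg
      map_add' := fun v w => map_add f v w }, ?_⟩
  · exact sT_add _ _ v w
  · intro x y v m
    exact f3 (fr x y v) m

end Pool.Agent.MET
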