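import Pool.Agent.Lib_helper53.MET.DefsE

/-! # MET, blocks E2a, E2b: the module of `sgFr` -/

set_option autoImplicit false

namespace Pool.Agent.MET

/-- the sign `(-1)^t` -/
def sgn (t : ℤ) : ℤ := (((-1 : ℤˣ) ^ t : ℤˣ) : ℤ)

theorem sgn_add (s t : ℤ) : sgn (s + t) = sgn s * sgn t := by
  unfold sgn; rw [zpow_add, Units.val_mul]

theorem sgn_zero : sgn 0 = 1 := by simp [sgn]

theorem sgn_one : sgn 1 = -1 := by simp [sgn]

theorem sgn_sq (t : ℤ) : sgn t * sgn t = 1 := by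
  unfold sgn
  rw [← Units.val_mul, ← pow_two, ← zpow_natCast, ← zpow_mul, mul_comm, zpow_mul]
  simp

theorem sgn_cases (t : ℤ) : sgn t = 1 ∨ sgn t = -1 := by
  have h := sgn_sq t
  have : (sgn t - 1) * (sgn t + 1) = 0 := by linear_combination h
  rcases mul_eq_zero.1 this with h | h
  · left; linarith
  · right; linarith

/-- exponent vectors with four parts -/
def f4 {k : ℕ} (a b t : ℤ) (v : Fin k → ℤ) : Fin (k + 1 + 2) → ℤ := fr a b (Fin.cons (α := fun _ => ℤ) t v)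

theorem f4_add {k : ℕ} (a b t a' b' t' : ℤ) (v v' : Fin k → ℤ) :
    f4 (a + a') (b + b') (t + t') (v + v') = f4 a b t v + f4 a' b' t' v' := by
  funext i
  refine Fin.cases ?_ (fun i => ?_) i
  · rfl
  · refine Fin.cases ?_ (fun i => ?_) i
    · rfl
    · refine Fin.cases ?_ (fun i => ?_) i <;> rfl

theorem f4_zero {k : ℕ} : f4 0 0 0 (0 : Fin k → ℤ) = 0 := by
  funext i
  refine Fin.cases ?_ (fun i => ?_) i
  · rfl
  · refine Fin.cases ?_ (fun i => ?_) i
    · rfl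
    · refine Fin.cases ?_ (fun i => ?_) i <;> rfl

theorem f4_surj {k : ℕ} (u : Fin (k + 1 + 2) → ℤ) : ∃ (a b t : ℤ) (v : Fin k → ℤ), u = f4 a b t v := by
  refine ⟨u 0, u 1, u 2, fun i => u i.succ.succ.succ, ?_⟩
  funext i
  refine Fin.cases ?_ (fun i => ?_) i
  · rfl
  · refine Fin.cases ?_ (fun i => ?_) i
    · rfl
    · refine Fin.cases ?_ (fun i => ?_) i <;> rfl

theorem mon_one (k : ℕ) (p : ℕ × Bool) (i : Fin k) :
    mon k [p] i = if p.1 = (i : ℕ) then (if p.2 then (1 : ℤ) else -1) else 0 := by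
  simp [mon]

theorem mon4_0 (k : ℕ) : mon (k + 1 + 2) [(0, true)] = f4 1 0 0 (0 : Fin k → ℤ) := by
  funext i
  rw [mon_one]
  refine Fin.cases ?_ (fun i => ?_) i
  · rfl
  · refine Fin.cases ?_ (fun i => ?_) i
    · rfl
    · refine Fin.cases ?_ (fun i => ?_) i
      · rfl
      · exact if_neg (by simp)

theorem mon4_1 (k : ℕ) : mon (k + 1 + 2) [(1, true)] = f4 0 1 0 (0 : Fin k → ℤ) := by
  funext i
  rw [mon_one]
  refine Fin.cases ?_ (fun i => ?_) i
  · rfl
  · refine Fin.cases ?_ (fun i => ?_) i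
    · rfl
    · refine Fin.cases ?_ (fun i => ?_) i
      · rfl
      · exact if_neg (by simp)

theorem mon4_2 (k : ℕ) : mon (k + 1 + 2) [(2, true)] = f4 0 0 1 (0 : Fin k → ℤ) := by
  funext i
  rw [mon_one]
  refine Fin.cases ?_ (fun i => ?_) i
  · rfl
  · refine Fin.cases ?_ (fun i => ?_) i
    · rfl
    · refine Fin.cases ?_ (fun i => ?_) i
      · rfl
      · exact if_neg (by simp only [Fin.val_succ]; omega)

theorem mon4_sh (k : ℕ) (w : Word) : mon (k + 1 + 2) (sh 3 w) = f4 0 0 0 (mon k w) := by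
  induction w with
  | nil => rw [mon_nil, f4_zero]; rfl
  | cons p w ih =>
    have h1 : sh 3 (p :: w) = (p.1 + 3, p.2) :: sh 3 w := rfl
    rw [h1, mon_cons, ih, mon_cons k p w]
    have h2 : f4 0 0 0 (mon k [p] + mon k w) = f4 0 0 0 (mon k [p]) + f4 0 0 0 (mon k w) := by
      rw [← f4_add]; simp
    rw [h2]
    congr 1
    funext i
    rw [mon_one]
    refine Fin.cases ?_ (fun i => ?_) i
    · exact if_neg (by simp)
    · refine Fin.cases ?_ (fun i => ?_) i
      · exact if_neg (by simp)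
      · refine Fin.cases ?_ (fun i => ?_) i
        · refine if_neg ?_
          show ¬ (p.1 + 3 = 2)
          omega
        · show _ = mon k [p] i
          rw [mon_one]
          simp only [Fin.val_succ, Nat.add_right_cancel_iff]

/-- the module of `sgFr c` -/
abbrev NN (c : MCode) := PM (c.1 + 1 + 2) (c.2.1 + 1) (sgFr c).2.2

theorem mem_rel (c : MCode) (r : Rel) (h : r ∈ c.2.2) : shr 1 3 r ∈ (sgFr c).2.2 := by
  simp only [sgFr, List.mem_append, List.mem_map]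
  exact Or.inl (Or.inl (Or.inl (Or.inl ⟨r, h, rfl⟩)))

theorem mem_s (c : MCode) (i : ℕ) (h : i < c.2.1) :
    [(i + 1, true, [(2, true)]), (i + 1, true, [])] ∈ (sgFr c).2.2 := by
  simp only [sgFr, List.mem_append, List.mem_map, List.mem_range]
  exact Or.inl (Or.inl (Or.inl (Or.inr ⟨i, h, rfl⟩)))

theorem mem_y (c : MCode) (i : ℕ) (h : i < c.2.1) : eqn 0 (i + 1) 1 ∈ (sgFr c).2.2 := by
  simp only [sgFr, List.mem_append, List.mem_map, List.mem_range]
  exact Or.inl (Or.inl (Or.inr ⟨i, h, rfl⟩))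

theorem mem_y' (c : MCode) (i : ℕ) (h : i < c.2.1) : eqn 1 (i + 1) 1 ∈ (sgFr c).2.2 := by
  simp only [sgFr, List.mem_append, List.mem_map, List.mem_range]
  exact Or.inl (Or.inr ⟨i, h, rfl⟩)

theorem mem_ws (c : MCode) : [(0, true, [(2, true)]), (0, true, [])] ∈ (sgFr c).2.2 := by
  simp [sgFr]

theorem mem_wy (c : MCode) : eqn 0 0 2 ∈ (sgFr c).2.2 := by
  simp [sgFr]

theorem mem_wy' (c : MCode) : eqn 1 0 1 ∈ (sgFr c).2.2 := by
  simp [sgFr]

/-- the values on the generators -/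
def csN {B : Type*} (β0 : B) (β : ℕ → B) : ℕ → B
  | 0 => β0
  | i + 1 => β i

/-- universal property of the module -/
theorem upN (c : MCode) {B : Type*} [AddCommGroup B] (ρ : (Fin (c.1 + 1 + 2) → ℤ) → B →+ B)
    (h0 : ∀ x, ρ 0 x = x) (ha : ∀ v w x, ρ (v + w) x = ρ v (ρ w x)) (β0 : B) (β : ℕ → B)
    (hw : ρ (f4 1 0 0 0) β0 = 2 • β0 ∧ ρ (f4 0 1 0 0) β0 = β0 ∧ ρ (f4 0 0 1 0) β0 = -β0)
    (hi : ∀ i, i < c.2.1 → ρ (f4 1 0 0 0) (β i) = β i ∧ ρ (f4 0 1 0 0) (β i) = β i ∧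
      ρ (f4 0 0 1 0) (β i) = -(β i))
    (hr : ∀ r ∈ c.2.2, (r.map (fun t => if t.1 < c.2.1 then
      sg t.2.1 • ρ (f4 0 0 0 (mon c.1 t.2.2)) (β t.1) else 0)).sum = 0) :
    ∃ f : NN c →+ B, f (gen 0) = β0 ∧ (∀ i, i < c.2.1 → f (gen (i + 1)) = β i) ∧
      ∀ v m, f (xp v • m) = ρ v (f m) := by
  obtain ⟨f, hf1, hf2⟩ := up (k := c.1 + 1 + 2) (b := c.2.1 + 1) (R := (sgFr c).2.2) ρ h0 ha
    (csN β0 β) (by
      intro r hr'
      simp only [sgFr, List.mem_append, List.mem_map, List.mem_range, List.mem_cons,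
        List.not_mem_nil, or_false] at hr'
      rcases hr' with ((((⟨r, hrc, rfl⟩ | ⟨i, hic, rfl⟩) | ⟨i, hic, rfl⟩) | ⟨i, hic, rfl⟩) | rfl | rfl | rfl)
      · rw [← hr r hrc]
        unfold ev shr
        rw [List.map_map]
        congr 1
        apply List.map_congr_left
        intro t _
        simp only [Function.comp, mon4_sh, Nat.add_lt_add_iff_right, csN]
      · obtain ⟨-, -, h3⟩ := hi i hic
        simp only [ev, List.map_cons, List.map_nil, List.sum_cons, List.sum_nil, mon4_2, mon_nil, h0,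
          Nat.add_lt_add_iff_right, hic, if_true, sg, one_smul, add_zero, csN, h3, neg_add_cancel]
      · rw [ev_eqn ρ _ h0 0 (i + 1) 1 (by omega), mon4_0]
        simp only [csN]
        rw [(hi i hic).1]; simp
      · rw [ev_eqn ρ _ h0 1 (i + 1) 1 (by omega), mon4_1]
        simp only [csN]
        rw [(hi i hic).2.1]; simp
      · obtain ⟨-, -, h3⟩ := hw
        simp only [ev, List.map_cons, List.map_nil, List.sum_cons, List.sum_nil, mon4_2, mon_nil, h0,
          Nat.zero_lt_succ, if_true, sg, one_smul, add_zero, csN, h3, neg_add_cancel]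
      · rw [ev_eqn ρ _ h0 0 0 2 (by omega), mon4_0]
        simp only [csN]
        rw [hw.1]; simp
      · rw [ev_eqn ρ _ h0 1 0 1 (by omega), mon4_1]
        simp only [csN]
        rw [hw.2.1]; simp)
  exact ⟨f, hf1 0 (by omega), fun i hi => hf1 (i + 1) (by omega), hf2⟩

/-! ### the actions -/

theorem gen_y (c : MCode) (i : ℕ) (h : i < c.2.1) :
    (xp (f4 1 0 0 0) : L (c.1 + 1 + 2)) • (gen (i + 1) : NN c) = gen (i + 1) := by
  have := pm_eqn (k := c.1 + 1 + 2) (b := c.2.1 + 1) 0 (i + 1) 1 (mem_y c i h)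
  rw [mon4_0, one_smul] at this
  exact this

theorem gen_y' (c : MCode) (i : ℕ) (h : i < c.2.1) :
    (xp (f4 0 1 0 0) : L (c.1 + 1 + 2)) • (gen (i + 1) : NN c) = gen (i + 1) := by
  have := pm_eqn (k := c.1 + 1 + 2) (b := c.2.1 + 1) 1 (i + 1) 1 (mem_y' c i h)
  rw [mon4_1, one_smul] at this
  exact this

theorem gen_wy (c : MCode) :
    (xp (f4 1 0 0 0) : L (c.1 + 1 + 2)) • (gen 0 : NN c) = 2 • gen 0 := by
  have := pm_eqn (k := c.1 + 1 + 2) (b := c.2.1 + 1) 0 0 2 (mem_wy c)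
  rw [mon4_0] at this
  exact this

theorem gen_wy' (c : MCode) :
    (xp (f4 0 1 0 0) : L (c.1 + 1 + 2)) • (gen 0 : NN c) = gen 0 := by
  have := pm_eqn (k := c.1 + 1 + 2) (b := c.2.1 + 1) 1 0 1 (mem_wy' c)
  rw [mon4_1, one_smul] at this
  exact this

theorem gen_s (c : MCode) (i : ℕ) (h : i < c.2.1 + 1) :
    (xp (f4 0 0 1 0) : L (c.1 + 1 + 2)) • (gen i : NN c) = -gen i := by
  have key : ∀ j : ℕ, [(j, true, [(2, true)]), (j, true, [])] ∈ (sgFr c).2.2 →
      (xp (f4 0 0 1 0) : L (c.1 + 1 + 2)) • (gen j : NN c) = -gen j := by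
    intro j hj
    have := pm_rel (k := c.1 + 1 + 2) (b := c.2.1 + 1) _ hj
    simp only [List.map_cons, List.map_nil, List.sum_cons, List.sum_nil, mon4_2, mon_nil, xp_zero,
      sg, if_true, one_smul, add_zero] at this
    exact eq_neg_of_add_eq_zero_left this
  rcases i with _ | i
  · exact key 0 (mem_ws c)
  · exact key (i + 1) (mem_s c i (by omega))

theorem act_s (c : MCode) (n : NN c) : (xp (f4 0 0 1 0) : L (c.1 + 1 + 2)) • n = -n := by
  refine pm_induction (motive := fun n => (xp (f4 0 0 1 0) : L (c.1 + 1 + 2)) • n = -n) n ?_ ?_ ?_ ?_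
  · simp
  · intro a b ha hb
    rw [smul_add, ha, hb, neg_add]
  · intro a ha
    rw [smul_neg, ha]
  · intro v i hi
    rw [smul_comm, gen_s c i hi, smul_neg]

theorem act_st (c : MCode) (t : ℤ) (n : NN c) :
    (xp (f4 0 0 t 0) : L (c.1 + 1 + 2)) • n = sgn t • n := by
  induction t using Int.induction_on with
  | zero => rw [f4_zero, xp_zero, one_smul, sgn_zero, one_smul]
  | succ t ih =>
    have h1 : f4 0 0 ((t : ℤ) + 1) (0 : Fin c.1 → ℤ) = f4 0 0 1 0 + f4 0 0 (t : ℤ) 0 := by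
      rw [← f4_add, add_comm (1 : ℤ)]; simp
    rw [h1, xp_add, mul_smul, ih, act_s, sgn_add, sgn_one]
    simp
  | pred t ih =>
    have h1 : f4 0 0 (-(t : ℤ)) (0 : Fin c.1 → ℤ) = f4 0 0 1 0 + f4 0 0 (-(t : ℤ) - 1) 0 := by
      rw [← f4_add]; simp
    rw [h1, xp_add, mul_smul, act_s] at ih
    have h2 : sgn (-(t : ℤ)) = -sgn (-(t : ℤ) - 1) := by
      have h3 : (-(t : ℤ)) = 1 + (-(t : ℤ) - 1) := by ring
      rw [h3, sgn_add, sgn_one]
      have h4 : (1 + (-(t : ℤ) - 1)) - 1 = -(t : ℤ) - 1 := by ring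
      rw [h4]; ring
    rw [h2, neg_smul] at ih
    exact neg_injective ih

/-- the embedding of `M` -/
theorem exists_iota (c : MCode) : ∃ ι : PM c.1 c.2.1 c.2.2 →+ NN c,
    (∀ i, i < c.2.1 → ι (gen i) = gen (i + 1)) ∧
    (∀ v m, ι (xp v • m) = (xp (f4 0 0 0 v) : L (c.1 + 1 + 2)) • ι m) ∧
    (∀ m, (xp (f4 1 0 0 0) : L (c.1 + 1 + 2)) • ι m = ι m) ∧
    (∀ m, (xp (f4 0 1 0 0) : L (c.1 + 1 + 2)) • ι m = ι m) := by
  obtain ⟨ι, h1, h2⟩ := up (k := c.1) (b := c.2.1) (R := c.2.2) (B := NN c)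
    (fun v => DistribSMul.toAddMonoidHom (NN c) (xp (f4 0 0 0 v) : L (c.1 + 1 + 2)))
    (fun x => by
      show (xp (f4 0 0 0 0) : L (c.1 + 1 + 2)) • x = x
      rw [f4_zero, xp_zero, one_smul])
    (fun v w x => by
      show (xp (f4 0 0 0 (v + w)) : L (c.1 + 1 + 2)) • x = (xp (f4 0 0 0 v) : L (c.1 + 1 + 2)) • (xp (f4 0 0 0 w) : L (c.1 + 1 + 2)) • x
      rw [← mul_smul, ← xp_add, ← f4_add]; simp)
    (fun i => gen (i + 1)) (by
      intro r hr
      have h3 := pm_rel (k := c.1 + 1 + 2) (b := c.2.1 + 1) _ (mem_rel c r hr)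
      unfold shr at h3
      rw [List.map_map] at h3
      rw [← h3]
      unfold ev
      congr 1
      apply List.map_congr_left
      intro t _
      simp only [Function.comp, mon4_sh]
      by_cases ht : t.1 < c.2.1
      · rw [if_pos ht]; rfl
      · rw [if_neg ht, gen_of_le (by omega), smul_zero, smul_zero])
  refine ⟨ι, h1, h2, ?_, ?_⟩
  · intro m
    have e := pm_ext ((DistribSMul.toAddMonoidHom (NN c) (xp (f4 1 0 0 0) : L (c.1 + 1 + 2))).comp ι) ι (by
      intro v i hi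
      show (xp (f4 1 0 0 0) : L (c.1 + 1 + 2)) • ι (xp v • gen i) = ι (xp v • gen i)
      rw [h2, h1 i hi]
      show (xp (f4 1 0 0 0) : L (c.1 + 1 + 2)) • (xp (f4 0 0 0 v) : L (c.1 + 1 + 2)) • (gen (i + 1) : NN c) =
        (xp (f4 0 0 0 v) : L (c.1 + 1 + 2)) • (gen (i + 1) : NN c)
      rw [smul_comm, gen_y c i hi])
    exact DFunLike.congr_fun e m
  · intro m
    have e := pm_ext ((DistribSMul.toAddMonoidHom (NN c) (xp (f4 0 1 0 0) : L (c.1 + 1 + 2))).comp ι) ι (by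
      intro v i hi
      show (xp (f4 0 1 0 0) : L (c.1 + 1 + 2)) • ι (xp v • gen i) = ι (xp v • gen i)
      rw [h2, h1 i hi]
      show (xp (f4 0 1 0 0) : L (c.1 + 1 + 2)) • (xp (f4 0 0 0 v) : L (c.1 + 1 + 2)) • (gen (i + 1) : NN c) =
        (xp (f4 0 0 0 v) : L (c.1 + 1 + 2)) • (gen (i + 1) : NN c)
      rw [smul_comm, gen_y' c i hi])
    exact DFunLike.congr_fun e m

end Pool.Agent.MET
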